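import Pool.Agent.Helper72.GP.Goals

/-!
# Project GP (MP_c9dfb5_co), packet CI
-/

set_option autoImplicit false

namespace Pool.Agent.Helper20.GP

open Finset Pool.Agent.Helper72.GP
open scoped Classical

noncomputable section

/-- Counting pairs by their first coordinate. -/
theorem card_prod_le {α β : Type} [Fintype α] [Fintype β] (S : α × β → Prop) (A : α → Prop)
    (C1 C2 : ℕ) (hA : Nat.card {a // A a} ≤ C1) (h1 : ∀ w, S w → A w.1)
    (h2 : ∀ a, Nat.card {b // S (a, b)} ≤ C2) : Nat.card {w // S w} ≤ C1 * C2 := by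
  have e1 : Nat.card {w // S w} = (univ.filter S).card := by
    rw [Nat.card_eq_fintype_card, Fintype.card_subtype]
  have e2 : Nat.card {a // A a} = (univ.filter A).card := by
    rw [Nat.card_eq_fintype_card, Fintype.card_subtype]
  have h3 := Finset.card_le_mul_card_image_of_maps_to (f := Prod.fst) (s := univ.filter S)
    (t := univ.filter A) (fun w hw => by
      simp only [Finset.mem_filter, Finset.mem_univ, true_and] at hw ⊢
      exact h1 w hw) C2 (fun a _ => by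
      have e3 : Nat.card {b // S (a, b)} = (univ.filter fun b => S (a, b)).card := by
        rw [Nat.card_eq_fintype_card, Fintype.card_subtype]
      refine le_trans ?_ (e3 ▸ h2 a)
      refine Finset.card_le_card_of_injOn Prod.snd ?_ ?_
      · rintro ⟨a', b⟩ hw
        simp only [Finset.coe_filter, Finset.mem_filter, Finset.mem_univ, true_and,
          Set.mem_ofPred_eq] at hw ⊢
        obtain ⟨hw, rfl⟩ := hw
        exact hw
      · rintro ⟨a1, b1⟩ hw1 ⟨a2, b2⟩ hw2 h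
        simp only [Finset.coe_filter, Finset.mem_filter, Finset.mem_univ, true_and,
          Set.mem_ofPred_eq] at hw1 hw2 h
        rw [h, hw1.2, hw2.2])
  rw [e1]
  refine h3.trans ?_
  rw [mul_comm]
  exact Nat.mul_le_mul_right _ (e2 ▸ hA)

/-- Counting by the fibres of a map. -/
theorem card_fib_le {α γ : Type} [Fintype α] [Fintype γ] (A : α → Prop) (f : α → γ)
    (B : γ → Prop) (C1 C2 : ℕ) (hB : Nat.card {c // B c} ≤ C1) (h1 : ∀ w, A w → B (f w))
    (h2 : ∀ c, Nat.card {w // f w = c} ≤ C2) : Nat.card {w // A w} ≤ C1 * C2 := by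
  have e1 : Nat.card {w // A w} = (univ.filter A).card := by
    rw [Nat.card_eq_fintype_card, Fintype.card_subtype]
  have e2 : Nat.card {a // B a} = (univ.filter B).card := by
    rw [Nat.card_eq_fintype_card, Fintype.card_subtype]
  have h3 := Finset.card_le_mul_card_image_of_maps_to (f := f) (s := univ.filter A)
    (t := univ.filter B) (fun w hw => by
      simp only [Finset.mem_filter, Finset.mem_univ, true_and] at hw ⊢
      exact h1 w hw) C2 (fun c _ => by
      have e3 : Nat.card {w // f w = c} = (univ.filter fun w => f w = c).card := by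
        rw [Nat.card_eq_fintype_card, Fintype.card_subtype]
      refine le_trans ?_ (e3 ▸ h2 c)
      exact Finset.card_le_card (Finset.filter_subset_filter _ (Finset.subset_univ _)))
  rw [e1]
  refine h3.trans ?_
  rw [mul_comm]
  exact Nat.mul_le_mul_right _ (e2 ▸ hB)

/-- Vectors with all coordinates in a set. -/
theorem card_pi8 {γ : Type} [Fintype γ] (B : γ → Prop) :
    Nat.card {c : Fin 8 → γ // ∀ i, B (c i)} = Nat.card {c // B c} ^ 8 := by
  have e : {c : Fin 8 → γ // ∀ i, B (c i)} ≃ (Fin 8 → {c // B c}) :=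
    { toFun := fun c i => ⟨c.1 i, c.2 i⟩
      invFun := fun c => ⟨fun i => (c i).1, fun i => (c i).2⟩
      left_inv := fun _ => rfl
      right_inv := fun _ => rfl }
  rw [Nat.card_congr e, Nat.card_fun, Nat.card_eq_fintype_card (α := Fin 8), Fintype.card_fin]

theorem lin_rel {R a b : ℕ} {x y z : Pt} (h : Tri a b x y z) (θ : ZMod R × ZMod R × ZMod R) :
    ((a + b : ℕ) : ZMod R) * lin θ y = (b : ZMod R) * lin θ x + (a : ZMod R) * lin θ z := by
  obtain ⟨-, -, -, h1, h2⟩ := h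
  have e1 : (b : ZMod R) * (x.1 : ZMod R) + a * (z.1 : ZMod R) = (a + b) * (y.1 : ZMod R) := by
    have := congrArg (Int.cast : ℤ → ZMod R) h1
    push_cast at this
    exact this
  have e2 : (b : ZMod R) * (x.2 : ZMod R) + a * (z.2 : ZMod R) = (a + b) * (y.2 : ZMod R) := by
    have := congrArg (Int.cast : ℤ → ZMod R) h2
    push_cast at this
    exact this
  unfold lin
  push_cast
  linear_combination (-θ.1) * e1 - θ.2.1 * e2

/-- Consequences of the parameters. -/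
theorem basic {N H R M L e H2 a b : ℕ} {x y z : Pt} (hTRI : TRI) (hP : Par N H R M L e H2)
    (hT : Tri a b x y z) (hxz : x ≠ z) (hB : Box N {x, z}) :
    a + b ≤ N ∧ a + b ≤ L ∧ a + b < R ∧ ((x.1 : ZMod R) ≠ z.1 ∨ (x.2 : ZMod R) ≠ z.2) := by
  have hx := hB x (by simp)
  have hz := hB z (by simp)
  have hne : x.1 - z.1 ≠ 0 ∨ x.2 - z.2 ≠ 0 := by
    by_contra h
    push Not at h
    exact hxz (Prod.ext (by omega) (by omega))
  have hd : (a + b) ∣ gd x z := (hTRI.2.1 a b x y z hT).1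
  have hN : a + b ≤ N := by
    have h1 : ((a + b : ℕ) : ℤ) ∣ x.1 - z.1 :=
      (Int.natCast_dvd_natCast.2 hd).trans (Int.gcd_dvd_left _ _)
    have h2 : ((a + b : ℕ) : ℤ) ∣ x.2 - z.2 :=
      (Int.natCast_dvd_natCast.2 hd).trans (Int.gcd_dvd_right _ _)
    rcases hne with h | h
    · have := Int.le_of_dvd (abs_pos.2 h) ((dvd_abs _ _).2 h1)
      have h3 : |x.1 - z.1| ≤ N := by
        rw [abs_le]
        constructor <;> omega
      omega
    · have := Int.le_of_dvd (abs_pos.2 h) ((dvd_abs _ _).2 h2)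
      have h3 : |x.2 - z.2| ≤ N := by
        rw [abs_le]
        constructor <;> omega
      omega
  have hNL := hP.hNL
  have hLR : L ≤ R := (Nat.le_mul_of_pos_left L hP.hH).trans hP.hLR
  have ha := hT.1
  refine ⟨hN, by omega, by omega, ?_⟩
  rcases hne with h | h
  · left
    intro he
    apply h
    have h1 : ((x.1 - z.1 : ℤ) : ZMod R) = 0 := by
      push_cast
      rw [he, sub_self]
    rw [ZMod.intCast_zmod_eq_zero_iff_dvd] at h1
    exact Int.eq_zero_of_abs_lt_dvd h1 (by rw [abs_lt]; constructor <;> omega)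
  · right
    intro he
    apply h
    have h1 : ((x.2 - z.2 : ℤ) : ZMod R) = 0 := by
      push_cast
      rw [he, sub_self]
    rw [ZMod.intCast_zmod_eq_zero_iff_dvd] at h1
    exact Int.eq_zero_of_abs_lt_dvd h1 (by rw [abs_lt]; constructor <;> omega)

/-- A nonzero minor stays nonzero modulo `M`. -/
theorem minor_ne {M L H2 : ℕ} (hM1 : 16 * (H2 * L ^ 2) < M) (hH2 : 1 ≤ H2) {U1 U2 U3 : Fin 8 → ℕ}
    (h1 : ∀ i, U1 i < L) (h2 : ∀ i, U2 i < L) (h3 : ∀ i, U3 i < L) (hD : ¬ Dep U1 U2 U3) :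
    ∃ i j, ((U1 i : ZMod M) - U2 i) * ((U3 j : ZMod M) - U2 j) ≠
      ((U1 j : ZMod M) - U2 j) * ((U3 i : ZMod M) - U2 i) := by
  unfold Dep at hD
  push Not at hD
  obtain ⟨i, j, hij⟩ := hD
  refine ⟨i, j, fun he => hij ?_⟩
  have e1 : ((((U1 i : ℤ) - U2 i) * ((U3 j : ℤ) - U2 j) -
      ((U1 j : ℤ) - U2 j) * ((U3 i : ℤ) - U2 i) : ℤ) : ZMod M) = 0 := by
    push_cast
    rw [he, sub_self]
  rw [ZMod.intCast_zmod_eq_zero_iff_dvd] at e1
  have habs : ∀ k l : Fin 8, |((U1 k : ℤ) - U2 k) * ((U3 l : ℤ) - U2 l)| ≤ (L : ℤ) ^ 2 := by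
    intro k l
    rw [abs_mul, sq]
    have a1 := h1 k
    have a2 := h2 k
    have a3 := h3 l
    have a4 := h2 l
    exact mul_le_mul (by rw [abs_le]; constructor <;> omega) (by rw [abs_le]; constructor <;> omega)
      (abs_nonneg _) (by omega)
  have hlt : |((U1 i : ℤ) - U2 i) * ((U3 j : ℤ) - U2 j) -
      ((U1 j : ℤ) - U2 j) * ((U3 i : ℤ) - U2 i)| < (M : ℤ) := by
    refine (abs_sub _ _).trans_lt ?_
    have b1 := habs i j
    have b2 := habs j i
    have b3 : (16 * (H2 * L ^ 2) : ℤ) < M := by exact_mod_cast hM1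
    have b4 : (1 : ℤ) ≤ H2 := by exact_mod_cast hH2
    have b5 : (0 : ℤ) ≤ (L : ℤ) ^ 2 := sq_nonneg _
    nlinarith
  have := Int.eq_zero_of_abs_lt_dvd e1 hlt
  linarith

theorem ci (hFIB : FIB) (hW2 : W2) (hBOXC : BOXC) (hTRI : TRI) : CI := by
  intro N H R M L e H2 a b x y z hP hT hxz hB hH
  obtain ⟨hN, hmL, hmR, hne⟩ := basic hTRI hP hT hxz hB
  have hRp : Fact R.Prime := ⟨hP.hR⟩
  have hMp : Fact M.Prime := ⟨hP.hM⟩
  have ha := hT.1
  have hb := hT.2.1
  have hH2 : 1 ≤ H2 := hP.hH.trans hP.hHH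
  have hm0 : ((a + b : ℕ) : ZMod R) ≠ 0 := by
    intro h
    rw [ZMod.natCast_eq_zero_iff] at h
    exact absurd (Nat.le_of_dvd (by omega) h) (by omega)
  have hlin : ∀ θ : ZMod R × ZMod R × ZMod R, lin θ y =
      ((a + b : ℕ) : ZMod R)⁻¹ * ((b : ZMod R) * lin θ x + (a : ZMod R) * lin θ z) := fun θ => by
    rw [← lin_rel hT θ, inv_mul_cancel_left₀ hm0]
  obtain ⟨B, hBdef⟩ : ∃ B : ZMod R × ZMod R → Prop, B = fun p => p.1.val < L ∧ p.2.val < L ∧
    (((a + b : ℕ) : ZMod R)⁻¹ * ((b : ZMod R) * p.1 + (a : ZMod R) * p.2)).val < L := ⟨_, rfl⟩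
  obtain ⟨K, hK⟩ : ∃ K, K = Nat.card {p // B p} := ⟨_, rfl⟩
  have hKR : K * R ≤ 12 * L ^ 3 := by
    rw [hK, hBdef]
    exact hBOXC R H L a b hP.hR hP.hH hP.hLR hP.hRL ha hb hT.2.2.1 hH hmL hmR
  have hE : e ^ 2 ≤ M := by
    have h1 := hP.he
    have h2 := hP.hM1
    nlinarith [Nat.zero_le (L ^ 2), Nat.mul_le_mul_right (L ^ 2) hH2]
  have hcard : Nat.card {ω : O1 R × O2 M // Sel L (e ^ 2) ω x ∧ Sel L (e ^ 2) ω y ∧
      Sel L (e ^ 2) ω z ∧ ¬ Dep (UU ω.1 x) (UU ω.1 y) (UU ω.1 z)} ≤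
      (K ^ 8 * R ^ 8) * (M ^ 6 * (e ^ 2) ^ 3) := by
    refine card_prod_le _ (fun ω : O1 R => ∀ i, B (lin (ω i) x, lin (ω i) z)) _ _ ?_ ?_ ?_
    · refine card_fib_le _ (fun ω i => (lin (ω i) x, lin (ω i) z)) (fun c => ∀ i, B (c i)) _ _ ?_
        (fun ω h => h) ?_
      · rw [card_pi8, hK]
      · intro c
        have h1 := hFIB R hP.hR x z hne (fun i => (c i).1) (fun i => (c i).2)
        refine le_trans (le_of_eq (Nat.card_congr (Equiv.subtypeEquivRight fun ω => ?_))) h1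
        constructor
        · intro h
          exact ⟨fun i => congrArg Prod.fst (congrFun h i), fun i => congrArg Prod.snd (congrFun h i)⟩
        · rintro ⟨h, h'⟩
          funext i
          exact Prod.ext (h i) (h' i)
    · rintro ω ⟨h1, h2, h3, -⟩ i
      rw [hBdef]
      refine ⟨h1.1 i, h3.1 i, ?_⟩
      rw [← hlin]
      exact h2.1 i
    · intro ω
      by_cases hω : (∀ i, UU ω x i < L) ∧ (∀ i, UU ω y i < L) ∧ (∀ i, UU ω z i < L) ∧
          ¬ Dep (UU ω x) (UU ω y) (UU ω z)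
      · obtain ⟨h1, h2, h3, h4⟩ := hω
        have h5 := (hW2 M (e ^ 2) hP.hM hE).2.2 (UU ω x) (UU ω y) (UU ω z)
          (minor_ne hP.hM1 hH2 h1 h2 h3 h4)
        refine le_trans ?_ h5
        refine Nat.card_le_card_of_injective (fun c => ⟨c.1, c.2.1.2, c.2.2.1.2, c.2.2.2.1.2⟩) ?_
        intro c c' h
        simp only [Subtype.mk.injEq] at h
        exact Subtype.ext h
      · have : IsEmpty {c : O2 M // Sel L (e ^ 2) (ω, c) x ∧ Sel L (e ^ 2) (ω, c) y ∧
            Sel L (e ^ 2) (ω, c) z ∧ ¬ Dep (UU (ω, c).1 x) (UU (ω, c).1 y) (UU (ω, c).1 z)} :=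
          ⟨fun c => hω ⟨c.2.1.1, c.2.2.1.1, c.2.2.2.1.1, c.2.2.2.2⟩⟩
        rw [Nat.card_of_isEmpty]
        exact Nat.zero_le _
  have hR0 : (0 : ℝ) < R := by exact_mod_cast hP.hR.pos
  have hM0 : (0 : ℝ) < M := by exact_mod_cast hP.hM.pos
  have hcR : (Nat.card {ω : O1 R × O2 M // Sel L (e ^ 2) ω x ∧ Sel L (e ^ 2) ω y ∧
      Sel L (e ^ 2) ω z ∧ ¬ Dep (UU ω.1 x) (UU ω.1 y) (UU ω.1 z)} : ℝ) ≤
      ((K : ℝ) * R) ^ 8 * (M ^ 6 * ((e : ℝ) ^ 2) ^ 3) := by
    refine (Nat.cast_le.2 hcard).trans (le_of_eq ?_)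
    push_cast
    ring
  have hKR' : (K : ℝ) * R ≤ 12 * (L : ℝ) ^ 3 := by exact_mod_cast hKR
  refine hcR.trans ?_
  calc ((K : ℝ) * R) ^ 8 * (M ^ 6 * ((e : ℝ) ^ 2) ^ 3) ≤
      (12 * (L : ℝ) ^ 3) ^ 8 * (M ^ 6 * ((e : ℝ) ^ 2) ^ 3) := by gcongr
    _ = _ := by
      unfold bet
      field_simp

end

end Pool.Agent.Helper20.GP
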